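import Mathlib
import Pool.Agent.X37.RW.Exact
import Pool.Agent.X37.RW.Sub

/-!
# An explicit proportion of all patterns is realised by consecutive primes

Let `k ≥ 1`. In EVERY sufficiently large finite set `V` of natural numbers which misses a residue class modulo
every prime `p ≤ 8 k ^ 2 + 1`, at least the proportion `1 / C(8 k ^ 2, k) - ε` of the `(k + 1)`-element subsets
`T` has the property that the numbers `n + t`, `t ∈ T`, are CONSECUTIVE primes for infinitely many `n`. More
generally, the same for `n + q t`, `t ∈ T`, with `n ≡ b (mod q)`, uniformly in the modulus.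

Proof. (1) Among `8 k ^ 2 + 1` classes of `K` shifts (`K` large) there are `k + 1` shifts from different classes
which are a pattern of consecutive primes: with the weights of the coloured Maynard-Tao theorem the average of
`∑_g (N_g - (k / 2) N_g (N_g - 1))`, where `N_g` is the number of primes in the class `g`, can be made larger than
`θ (8 k ^ 2 + 1) / (k / 2)` for every `θ < 1 / 16`, hence larger than `k`; since a pair of primes in the same class
spoils at most `k` of the windows of `k + 1` consecutive primes, there is a window with primes from `k + 1`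
different classes. All the other numbers of the interval are made composite by congruences.
(2) If too many `(k + 1)`-subsets were bad, there would be `8 k ^ 2 + 1` classes of `K` elements all of whose
transversals are bad (theorems of de Caen and Erdős).
-/

set_option autoImplicit false

open Finset

namespace Pool.Agent.Results.MP_3ec731_nt.ExplicitProportion

/-- the numbers `n + t`, `t ∈ T`, are consecutive primes: they are prime, and every prime `n + j`
between two of them is one of them -/
def Consecutive (n : ℕ) (T : Finset ℕ) : Prop :=
  (∀ t ∈ T, (n + t).Prime) ∧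
    ∀ j : ℕ, (∃ a ∈ T, a ≤ j) → (∃ b ∈ T, j ≤ b) → (n + j).Prime → j ∈ T

open Classical in
/-- Let `k ≥ 1` and `ε > 0`. There is `n₀` such that for every modulus `q ≥ 1`, every `b` prime to `q` and every
set `V` of at least `n₀` natural numbers which misses a residue class modulo every prime `p ≤ 8 k ^ 2 + 1`, at
least the proportion `1 / C(8 k ^ 2, k) - ε` of the `(k + 1)`-element subsets `T` of `V` is such that for
infinitely many `n ≡ b (mod q)` the numbers `n + q t`, `t ∈ T`, are consecutive primes. -/
theorem result (k : ℕ) (hk : 1 ≤ k) (ε : ℝ) (hε : 0 < ε) : ∃ n₀ : ℕ, ∀ q b : ℕ, 1 ≤ q → Nat.Coprime b q →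
    ∀ V : Finset ℕ, (∀ p : ℕ, p ≤ 8 * k ^ 2 + 1 → p.Prime → ∃ r : ℕ, ∀ v ∈ V, ¬ v ≡ r [MOD p]) →
    n₀ ≤ V.card →
    (1 / ((8 * k ^ 2).choose k : ℝ) - ε) * (V.card.choose (k + 1) : ℝ) ≤
      (((V.powersetCard (k + 1)).filter (fun T =>
        {n : ℕ | n ≡ b [MOD q] ∧ Consecutive n (T.image (fun t => q * t))}.Infinite)).card : ℝ) := by
  obtain ⟨K, hK⟩ := Pool.Agent.X37.RW.run_of
    (fun T lam θ h1 h2 h3 h4 => Pool.Agent.X37.RW.exact_th T lam θ h1 h2 h3 h4) k hk
  exact Pool.Agent.X37.RW.subsetsC hk hK hε

end Pool.Agent.Results.MP_3ec731_nt.ExplicitProportion
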