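import Mathlib
import Pool.Agent.X37.RW.Exact
import Pool.Agent.X37.RW.Pts

/-!
# Near `k + 1` of any `8 k ^ 2 + 1` points there are `k + 1` consecutive primes

For every `k ≥ 1` there is `C` such that for every modulus `q`, every `a` prime to `q` and ANY natural numbers
`x_0 ≤ x_1 ≤ … ≤ x_{8 k ^ 2}` there are `i_0 < i_1 < … < i_k` and `y_0 < y_1 < … < y_k` with
`x_{i_j} ≤ y_j ≤ x_{i_j} + C q` such that the numbers `n + y_0, …, n + y_k` are `k + 1` CONSECUTIVE primes for
infinitely many `n ≡ a (mod q)`: up to a bounded error, every set of `8 k ^ 2 + 1` points contains a pattern of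
`k + 1` consecutive primes.

Proof: the theorem on runs of consecutive primes in different classes of shifts, see `ExplicitProportion`.
-/

set_option autoImplicit false

open Finset

namespace Pool.Agent.Results.MP_3ec731_nt.NearAnyPoints

/-- the numbers `n + t`, `t ∈ T`, are consecutive primes: they are prime, and every prime `n + j`
between two of them is one of them -/
def Consecutive (n : ℕ) (T : Finset ℕ) : Prop :=
  (∀ t ∈ T, (n + t).Prime) ∧
    ∀ j : ℕ, (∃ a ∈ T, a ≤ j) → (∃ b ∈ T, j ≤ b) → (n + j).Prime → j ∈ T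

theorem result (k : ℕ) (hk : 1 ≤ k) : ∃ C : ℕ, ∀ q a : ℕ, 1 ≤ q → Nat.Coprime a q →
    ∀ x : Fin (8 * k ^ 2 + 1) → ℕ, Monotone x →
    ∃ (i : Fin (k + 1) → Fin (8 * k ^ 2 + 1)) (y : Fin (k + 1) → ℕ), StrictMono i ∧ StrictMono y ∧
      (∀ j, x (i j) ≤ y j ∧ y j ≤ x (i j) + C * q) ∧
      {n : ℕ | n ≡ a [MOD q] ∧ Consecutive n (univ.image y)}.Infinite := by
  obtain ⟨K, hK⟩ := Pool.Agent.X37.RW.run_of
    (fun T lam θ h1 h2 h3 h4 => Pool.Agent.X37.RW.exact_th T lam θ h1 h2 h3 h4) k hk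
  exact Pool.Agent.X37.RW.points hK

end Pool.Agent.Results.MP_3ec731_nt.NearAnyPoints
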