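import Pool.Agent.W70.HRC.Fin
import Pool.Agent.H387R2.U2
import Pool.Agent.X26.GP.Tup

/-!
# Patterns of consecutive primes, repeated at all points of common generalised progressions

A positive proportion of all patterns `T` of `k + 1` numbers in an arbitrary dense set of positive integers
`≤ Λ log x` is realised by consecutive primes with the right order of magnitude (starting files). Here the same
pattern `T` of consecutive primes is found at all the places `n + ∑ f_i d_i`, `f ∈ F`, at the same time, for a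
positive proportion of all vectors of differences `d` in the cube `[1, D] ^ m`, `D` from `log ^ B x` to `x`. The
vector `d` serves for all sets `F` of vectors, and for every `F` the number of `n` is bounded below by a constant
times the number `𝔖(T') x / log ^ |T'| x` expected for the set `T' = T + {∑ f_i d_i : f ∈ F}` of all the primes.
-/

set_option autoImplicit false

open Finset

namespace Pool.Agent.Results.MP_3ec731_nt.RepeatedPatterns

/-- `n` realises `T` as consecutive primes: the numbers `n + t`, `t ∈ T`, are prime, and every prime between two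
of them is one of them. -/
def Consecutive (n : ℕ) (T : Finset ℕ) : Prop :=
  (∀ t ∈ T, (n + t).Prime) ∧
    ∀ j : ℕ, (∃ a ∈ T, a ≤ j) → (∃ b ∈ T, j ≤ b) → (n + j).Prime → j ∈ T

/-- The number of the residue classes modulo `p` occupied by `T`. -/
def nu (T : Finset ℕ) (p : ℕ) : ℕ := (T.image (· % p)).card

/-- The factor at `p` of the singular series. -/
noncomputable def loc (T : Finset ℕ) (p : ℕ) : ℝ :=
  (1 - (nu T p : ℝ) / p) / (1 - 1 / (p : ℝ)) ^ T.card

/-- The singular series of `T`. -/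
noncomputable def 𝔖 (T : Finset ℕ) : ℝ := ∏' p : Nat.Primes, loc T p

/-- The set of the numbers `t + ∑ f_i d_i`, `t ∈ T`, `f ∈ F`. -/
def sumSet {m : ℕ} (T : Finset ℕ) (d : Fin m → ℕ) (F : Finset (Fin m → ℕ)) : Finset ℕ :=
  (T ×ˢ F).image (fun p : ℕ × (Fin m → ℕ) => p.1 + ∑ i, p.2 i * d i)

open Classical in
/-- The number of the `1 ≤ n ≤ x` such that every `n + ∑ f_i d_i`, `f ∈ F`, realises `T` as consecutive primes. -/
noncomputable def count {m : ℕ} (x : ℕ) (T : Finset ℕ) (d : Fin m → ℕ) (F : Finset (Fin m → ℕ)) : ℕ :=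
  ((Icc 1 x).filter (fun n => ∀ f ∈ F, Consecutive (n + ∑ i, f i * d i) T)).card

/-- For every `D` between `log ^ B x` and `x` at least `c D ^ m` vectors `d` with entries in `[1, D]` are such that
for all sets `F` of vectors with entries in `{0, ..., l - 1}` which contain the vector `0`: the sums
`t + ∑ f_i d_i` are distinct, they form an admissible set `T'` of `|T| |F|` numbers, and for at least
`c 𝔖(T') x / log ^ |T'| x` integers `n ≤ x` all the `n + ∑ f_i d_i`, `f ∈ F`, realise `T` as consecutive primes. -/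
def Repeated (m l B : ℕ) (c : ℝ) (x : ℕ) (T : Finset ℕ) : Prop :=
  ∀ D : ℕ, Real.log x ^ B ≤ D → D ≤ x →
    ∃ G : Finset (Fin m → ℕ), (∀ d ∈ G, ∀ i, 1 ≤ d i ∧ d i ≤ D) ∧ c * (D : ℝ) ^ m ≤ G.card ∧
      ∀ d ∈ G, ∀ F : Finset (Fin m → ℕ), (∀ f ∈ F, ∀ i, f i < l) → (fun _ => 0) ∈ F →
        (sumSet T d F).card = T.card * F.card ∧
        (∀ p : ℕ, p.Prime → nu (sumSet T d F) p < p) ∧
        c * (𝔖 (sumSet T d F) * (x / Real.log x ^ (sumSet T d F).card)) ≤ count x T d F

/-- The proportion: `1 / 4` for pairs, `1 / C(8 k ^ 2 + 1, k + 1)` for `k + 1` consecutive primes. -/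
noncomputable def proportion (k : ℕ) : ℝ := if k = 1 then 1 / 4 else 1 / ((8 * k ^ 2 + 1).choose (k + 1) : ℝ)

open Pool.Agent.H387R2.Uni Pool.Agent.W70.HRC

theorem CT_eq (T : Finset ℕ) : CT T = 𝔖 T := rfl

/-- natural numbers as integers -/
lemma nu_nat (T : Finset ℕ) (q : ℕ) :
    Pool.Agent.Y843.AC.HL.nu (T.map Nat.castEmbedding) q = nu T q := by
  classical
  unfold Pool.Agent.Y843.AC.HL.nu nu
  rw [map_eq_image, image_image]
  symm
  apply Pool.Agent.Y843.AC.HL.card_image_eq_of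
  intro s _ t _
  simp only [Function.comp, Nat.castEmbedding_apply]
  have e : ∀ v : ℕ, (v : ℤ) % (q : ℤ) = ((v % q : ℕ) : ℤ) := fun v => (Int.natCast_mod v q).symm
  rw [e s, e t]
  exact Nat.cast_inj

lemma sing_nat (T : Finset ℕ) : Pool.Agent.Y843.AC.HL.Sing (T.map Nat.castEmbedding) = 𝔖 T := by
  unfold Pool.Agent.Y843.AC.HL.Sing 𝔖 loc Pool.Agent.Y843.AC.HL.loc
  simp_rw [nu_nat, card_map]

lemma gg_nat (T : Finset ℕ) (x : ℕ) :
    Pool.Agent.Y843.AC.HL.gg (T.map Nat.castEmbedding) x = 𝔖 T / Real.log x ^ T.card := by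
  unfold Pool.Agent.Y843.AC.HL.gg
  rw [sing_nat, card_map]

lemma sum_nat {m : ℕ} (T : Finset ℕ) (d : Fin m → ℕ) (F : Finset (Fin m → ℕ)) :
    Pool.Agent.X26.GP.TF (T.map Nat.castEmbedding) d F = (sumSet T d F).map Nat.castEmbedding := by
  classical
  ext v
  rw [Pool.Agent.X26.GP.mem_TF, mem_map]
  unfold sumSet
  constructor
  · rintro ⟨t, ht, f, hf, rfl⟩
    rw [mem_map] at ht
    obtain ⟨t', ht', rfl⟩ := ht
    refine ⟨t' + ∑ i, f i * d i, mem_image.2 ⟨(t', f), mem_product.2 ⟨ht', hf⟩, rfl⟩, ?_⟩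
    rw [Nat.castEmbedding_apply, Nat.castEmbedding_apply, Nat.cast_add]
  · rintro ⟨w, hw, rfl⟩
    rw [mem_image] at hw
    obtain ⟨p, hp, rfl⟩ := hw
    rw [mem_product] at hp
    refine ⟨(p.1 : ℤ), mem_map.2 ⟨p.1, hp.1, rfl⟩, p.2, hp.2, ?_⟩
    rw [Nat.castEmbedding_apply, Nat.cast_add]

open Classical in
/-- from `FinC` to a statement for all `n ≤ x` -/
theorem of_fin {k : ℕ} {Λ κ : ℝ} (hΛ : 0 < Λ) (hF : FinC k Λ κ) {η ε : ℝ} (hη : 0 < η) (hε : 0 < ε) :
    ∃ δ : ℝ, 0 < δ ∧ ∃ x₀ : ℕ, ∀ x : ℕ, x₀ ≤ x → ∀ A : Finset ℕ,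
      (∀ a ∈ A, 1 ≤ a ∧ (a : ℝ) ≤ Λ / 2 * Real.log x) → η * Real.log x ≤ A.card →
      (κ - ε) * ∑ T ∈ A.powersetCard (k + 1), 𝔖 T ≤
        ∑ T ∈ (A.powersetCard (k + 1)).filter (fun T =>
          δ * (𝔖 T * (x / Real.log x ^ (k + 1))) ≤ (((Icc 1 x).filter (fun n => Consecutive n T)).card : ℝ)),
          𝔖 T := by
  obtain ⟨δ, hδ, X₀, hX₀⟩ := hF η ε hη hε
  refine ⟨δ / 3, by positivity, 2 * X₀ + 20, fun x hx A hA hcard => ?_⟩
  obtain ⟨X, hX⟩ : ∃ X : ℕ, X = x / 2 := ⟨_, rfl⟩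
  have hX1 : 2 * X ≤ x := by omega
  have hX6 : 6 ≤ X := by omega
  have hXX₀ : X₀ ≤ X := by omega
  have hXr : (6 : ℝ) ≤ X := by exact_mod_cast hX6
  have hxr : (X : ℝ) ≤ x := by exact_mod_cast (by omega : X ≤ x)
  have hx3 : (x : ℝ) ≤ 3 * X := by exact_mod_cast (by omega : x ≤ 3 * X)
  have hL : 0 < Real.log X := Real.log_pos (by linarith)
  have hLx : Real.log X ≤ Real.log x := Real.log_le_log (by linarith) hxr
  have hL2 : Real.log x ≤ 2 * Real.log X := by
    have h1 : (x : ℝ) ≤ (X : ℝ) ^ 2 := by nlinarith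
    calc Real.log x ≤ Real.log ((X : ℝ) ^ 2) := Real.log_le_log (by linarith) h1
      _ = 2 * Real.log X := by rw [Real.log_pow]; norm_num
  have hA' : ∀ a ∈ A, 1 ≤ a ∧ (a : ℝ) ≤ Λ * Real.log X := by
    intro a ha
    obtain ⟨h1, h2⟩ := hA a ha
    refine ⟨h1, h2.trans ?_⟩
    calc Λ / 2 * Real.log x ≤ Λ / 2 * (2 * Real.log X) := by gcongr
      _ = Λ * Real.log X := by ring
  have hcard' : η * Real.log X ≤ A.card := le_trans (by gcongr) hcard
  have key := hX₀ X hXX₀ A hA' hcard'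
  refine key.trans ?_
  refine sum_le_sum_of_subset_of_nonneg (f := CT) ?_ ?_
  · intro T hT
    rw [mem_filter] at hT ⊢
    refine ⟨hT.1, ?_⟩
    have h2' : (cnT X T : ℝ) ≤ (((Icc 1 x).filter (fun n => Consecutive n T)).card : ℝ) := by
      have : cnT X T ≤ ((Icc 1 x).filter (fun n => Consecutive n T)).card := by
        unfold cnT
        apply card_le_card
        intro n hn
        rw [mem_filter, mem_Ico] at hn
        rw [mem_filter, mem_Icc]
        exact ⟨⟨by omega, by omega⟩, hn.2⟩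
      exact_mod_cast this
    refine le_trans ?_ (hT.2.trans h2')
    rw [CT_eq]
    have h3 : 0 ≤ 𝔖 T := CT_nonneg T
    have h4 : (x : ℝ) / Real.log x ^ (k + 1) ≤ 3 * X / Real.log X ^ (k + 1) := by
      apply div_le_div₀ (by positivity) hx3 (by positivity)
      exact pow_le_pow_left₀ hL.le hLx _
    calc δ / 3 * (𝔖 T * (x / Real.log x ^ (k + 1))) ≤
        δ / 3 * (𝔖 T * (3 * X / Real.log X ^ (k + 1))) := by gcongr
      _ = δ * (𝔖 T * (X / Real.log X ^ (k + 1))) := by ring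
  · intro T _ _
    exact CT_nonneg T

/-- sets with the right order of magnitude are repeated -/
theorem repeated (k m l : ℕ) {Λ δ : ℝ} (hδ : 0 < δ) : ∃ c : ℝ, 0 < c ∧ ∃ B x₀ : ℕ, ∀ x : ℕ,
    x₀ ≤ x → ∀ T : Finset ℕ, T.card = k + 1 → (∀ t ∈ T, (t : ℝ) ≤ Λ * Real.log x) → 𝔖 T ≠ 0 →
    (open Classical in
      δ * (𝔖 T * (x / Real.log x ^ (k + 1))) ≤ (((Icc 1 x).filter (fun n => Consecutive n T)).card : ℝ)) →
    Repeated m l B c x T := by
  classical
  obtain ⟨c, hc, B, x₀, h⟩ := Pool.Agent.X26.GP.tup m l (k + 1) 1 le_rfl (θ := 1) (δ := δ) one_pos hδ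
  obtain ⟨x₁, h1⟩ := Pool.Agent.Y843.AC.HL.log_small Λ 1 one_pos
  refine ⟨c, hc, B, max x₀ (max x₁ 3), ?_⟩
  intro x hx T hT hTx hS0 hcard D hD1 hD2
  have e0 : x₀ ≤ x := by omega
  have e1 := h1 x (by omega)
  have e3 : 3 ≤ x := by omega
  rw [pow_one, Real.rpow_one] at e1
  have hadm : ∀ q : ℕ, q.Prime → nu T q < q := by
    intro q hq
    by_contra hcon
    apply hS0
    have h2 : nu T q ≤ q := by
      unfold nu
      have h3 : T.image (· % q) ⊆ range q := by
        intro v hv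
        obtain ⟨t, _, rfl⟩ := mem_image.1 hv
        exact mem_range.2 (Nat.mod_lt _ hq.pos)
      have h4 := card_le_card h3
      rwa [card_range] at h4
    have h3 : nu T q = q := by omega
    have h4 : loc T q = 0 := by
      have hq0 : (q : ℝ) ≠ 0 := by exact_mod_cast hq.ne_zero
      unfold loc
      rw [h3, div_self hq0, sub_self, zero_div]
    unfold 𝔖
    exact tprod_of_exists_eq_zero ⟨⟨q, hq⟩, h4⟩
  have htup : Pool.Agent.Y843.AC.HL.Tup (k + 1) x (T.map Nat.castEmbedding) := by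
    refine ⟨by rw [card_map, hT], ?_, ?_⟩
    · intro q hq
      rw [nu_nat]
      exact hadm q hq
    · intro t ht
      rw [mem_map] at ht
      obtain ⟨t', ht', rfl⟩ := ht
      rw [Nat.castEmbedding_apply, abs_of_nonneg (Int.natCast_nonneg _)]
      have h2 : (t' : ℝ) ≤ x := (hTx t' ht').trans e1
      exact_mod_cast h2
  obtain ⟨S, hS⟩ : ∃ S : Finset ℕ, S = (Icc 1 x).filter (fun n => Consecutive n T) := ⟨_, rfl⟩
  rw [← hS] at hcard
  obtain ⟨G, hG, hG1, hG2⟩ := h x e0 _ htup 0 x D (by rw [Real.rpow_one]) le_rfl hD1 hD2 S (by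
      rw [hS]
      refine (filter_subset _ _).trans ?_
      intro v hv
      rw [mem_Icc] at hv
      rw [mem_Ioc]
      omega) (by
      intro n hn
      rw [hS, mem_filter] at hn
      left
      intro t ht
      rw [mem_map] at ht
      obtain ⟨t', ht', rfl⟩ := ht
      have := hn.2.1 t' ht'
      rw [Nat.castEmbedding_apply, ← Nat.cast_add, Int.natAbs_natCast]
      exact this) (by
      rw [gg_nat, hT]
      calc δ * (x * (𝔖 T / Real.log x ^ (k + 1))) = δ * (𝔖 T * (x / Real.log x ^ (k + 1))) := by ring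
        _ ≤ _ := hcard)
  refine ⟨G, ?_, hG1, ?_⟩
  · intro d hd i
    have := hG hd
    rw [Fintype.mem_piFinset] at this
    exact mem_Icc.1 (this i)
  · intro d hd F hF h0
    obtain ⟨g1, g2, g3⟩ := hG2 d hd F hF h0
    rw [sum_nat] at g1 g2 g3
    rw [card_map] at g1
    refine ⟨by rw [g1, hT], ?_, ?_⟩
    · intro p hp
      have := g2 p hp
      rwa [nu_nat] at this
    · rw [gg_nat] at g3
      have g4 : c * (𝔖 (sumSet T d F) * (x / Real.log x ^ (sumSet T d F).card)) =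
          c * (x * (𝔖 (sumSet T d F) / Real.log x ^ (sumSet T d F).card)) := by ring
      rw [g4]
      refine g3.trans ?_
      unfold count
      have g5 : S.filter (fun n => ∀ f ∈ F, n + ∑ i, f i * d i ∈ S) ⊆
          (Icc 1 x).filter (fun n => ∀ f ∈ F, Consecutive (n + ∑ i, f i * d i) T) := by
        intro n hn
        rw [mem_filter] at hn ⊢
        refine ⟨?_, fun f hf => ?_⟩
        · have := hn.1
          rw [hS, mem_filter] at this
          exact this.1
        · have := hn.2 f hf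
          rw [hS, mem_filter] at this
          exact this.2
      exact_mod_cast card_le_card g5

open Classical in
/-- The singular series converges, and it is positive for admissible sets. For every `k ≥ 1` there is `Λ > 0` such
that for all `η, ε > 0` and all `m`, `l` there are `c > 0`, `B` and `x₀` with: for all `x ≥ x₀` and every set `A` of
positive integers `≤ Λ log x` with at least `η log x` elements, the `(k + 1)`-element subsets `T` of `A` which are
repeated, `Repeated m l B c x T`, carry at least the proportion `proportion k - ε` of the sum of `𝔖 T` over all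
`(k + 1)`-element subsets `T` of `A`. -/
theorem result :
    (∀ T : Finset ℕ, HasProd (fun p : Nat.Primes => loc T p) (𝔖 T) ∧
      ((∀ p : ℕ, p.Prime → nu T p < p) → 0 < 𝔖 T)) ∧
    ∀ k : ℕ, 1 ≤ k → ∃ Λ : ℝ, 0 < Λ ∧ ∀ η ε : ℝ, 0 < η → 0 < ε → ∀ m l : ℕ,
      ∃ c : ℝ, 0 < c ∧ ∃ B x₀ : ℕ, ∀ x : ℕ, x₀ ≤ x → ∀ A : Finset ℕ,
      (∀ a ∈ A, 1 ≤ a ∧ (a : ℝ) ≤ Λ * Real.log x) → η * Real.log x ≤ A.card →
      (proportion k - ε) * ∑ T ∈ A.powersetCard (k + 1), 𝔖 T ≤
        ∑ T ∈ (A.powersetCard (k + 1)).filter (fun T => Repeated m l B c x T), 𝔖 T := by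
  refine ⟨fun T => ⟨CT_hasProd T, fun hT => ?_⟩, fun k hk => ?_⟩
  · rw [← CT_eq, ← CT_en]
    apply Pool.Agent.H386R2.HL.singularSeries_pos (en_inj T)
    intro p hp
    rw [nu_en]
    exact hT p hp
  obtain ⟨Λ, hΛ, hF⟩ : ∃ Λ : ℝ, 0 < Λ ∧ FinC k Λ (proportion k) := by
    unfold proportion
    split_ifs with h1
    · subst h1
      obtain ⟨Λ, h1, _, h2⟩ := fin_one
      exact ⟨Λ, h1, h2⟩
    · obtain ⟨Λ, h1, _, h2⟩ := fin_k k hk
      exact ⟨Λ, h1, h2⟩
  refine ⟨Λ / 2, by positivity, fun η ε hη hε m l => ?_⟩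
  obtain ⟨δ, hδ, n₁, h1⟩ := of_fin hΛ hF hη hε
  obtain ⟨c, hc, B, n₂, h2⟩ := repeated k m l (Λ := Λ / 2) hδ
  refine ⟨c, hc, B, max n₁ n₂, fun x hx A hA hcard => ?_⟩
  refine (h1 x ((le_max_left _ _).trans hx) A hA hcard).trans ?_
  rw [← sum_filter_ne_zero]
  refine sum_le_sum_of_subset_of_nonneg (f := 𝔖) ?_ ?_
  · intro T hT
    rw [mem_filter, mem_filter, mem_powersetCard] at hT
    obtain ⟨⟨⟨hTA, hTc⟩, hT2⟩, hT3⟩ := hT
    rw [mem_filter, mem_powersetCard]
    exact ⟨⟨hTA, hTc⟩, h2 x ((le_max_right _ _).trans hx) T hTc (fun t ht => (hA t (hTA ht)).2) hT3 hT2⟩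
  · intro T _ _
    exact CT_nonneg T

end Pool.Agent.Results.MP_3ec731_nt.RepeatedPatterns
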