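import Mathlib
import Pool.Agent.X34.E.E11
import Pool.Agent.X34.E.E4

/-!
# Exact patterns of primes in admissible sets of 45 shifts: the right order of magnitude

Let `S` be an admissible set of 45 integers. For all large `x` there are at least `c x / (log x) ^ 45` integers
`n ≤ x` such that the primes at distance at most `R` from `n` are exactly the numbers `n + b`, `b ∈ B`, for a
subset `B` of `S` with at least two elements, while no `n + s`, `s ∈ S`, has a prime factor `≤ x ^ κ`, where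
`κ > 0` is an absolute constant. One subset `B` does this for all `R`, for arbitrarily large `x`.
-/

set_option autoImplicit false

open Finset Filter

namespace Pool.Agent.Results.MP_3ec731_nt.RightOrder45

/-- `n ≡ r (mod q)`, the primes at distance at most `R` from `n` are exactly the `n + b`, `b ∈ B`, and the
numbers `n + s`, `s ∈ S`, have no prime factors `≤ z` -/
def Pattern (q : ℕ) (r : ℤ) (S B : Finset ℤ) (R : ℕ) (z : ℝ) (n : ℕ) : Prop :=
  (n : ℤ) ≡ r [ZMOD q] ∧
    (∀ y : ℤ, |y| ≤ R → ((∃ p : ℕ, p.Prime ∧ (p : ℤ) = n + y) ↔ y ∈ B)) ∧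
    ∀ s ∈ S, ∀ p : ℕ, p.Prime → (p : ℝ) ≤ z → ¬ (p : ℤ) ∣ (n : ℤ) + s

/-- There is an absolute constant `κ > 0` such that for every set `S` of 45 integers which misses a residue
class modulo every prime, and every residue `r` modulo `q` for which all `r + s`, `s ∈ S`, are prime to `q`:
(1) for every `R` there is `c > 0` such that for all large `x` some `B ⊆ S` with at least two elements has at
least `c x / (log x) ^ 45` integers `1 ≤ n ≤ x`, `n ≡ r (mod q)`, for which the primes at distance at most `R`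
from `n` are exactly the `n + b`, `b ∈ B`, and no `n + s`, `s ∈ S`, has a prime factor `≤ x ^ κ`;
(2) there is one `B ⊆ S` with at least two elements for which this holds for all `R` (with `c` depending on
`R`), for arbitrarily large `x`. -/
theorem result : ∃ κ : ℝ, 0 < κ ∧ ∀ S : Finset ℤ, S.card = 45 →
    (∀ p : ℕ, p.Prime → ∃ t : ℤ, ∀ s ∈ S, ¬ (p : ℤ) ∣ t + s) →
    ∀ (q : ℕ) (r : ℤ), 0 < q → (∀ s ∈ S, IsCoprime (r + s) (q : ℤ)) →
    (∀ R : ℕ, ∃ c : ℝ, 0 < c ∧ ∀ᶠ x : ℝ in atTop, ∃ B ⊆ S, 2 ≤ B.card ∧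
      c * x / Real.log x ^ 45 ≤
        (Set.ncard {n : ℕ | 1 ≤ n ∧ (n : ℝ) ≤ x ∧ Pattern q r S B R (x ^ κ) n} : ℝ)) ∧
    ∃ B ⊆ S, 2 ≤ B.card ∧ ∀ R : ℕ, ∃ c : ℝ, 0 < c ∧ ∃ᶠ x : ℝ in atTop,
      c * x / Real.log x ^ 45 ≤
        (Set.ncard {n : ℕ | 1 ≤ n ∧ (n : ℝ) ≤ x ∧ Pattern q r S B R (x ^ κ) n} : ℝ) :=
  Pool.Agent.X34.E.exact_right Pool.Agent.X34.E.dhl45R

end Pool.Agent.Results.MP_3ec731_nt.RightOrder45
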